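import Pool.Agent.Y992.DZ.Stm
import Pool.Agent.Y514.HL.Zd
import Pool.Agent.H983R2.GC.Basic

/-!
# Project DZ (helper992): strong spatial mixing from the influence bound (job 4549)
-/

set_option autoImplicit false

namespace Pool.Agent.Y434.DZ

open Finset Pool.Agent.H983R2.GC Pool.Agent.W341.UG Pool.Agent.Y992.HL Pool.Agent.Y992.DZ

/-! ### sums over lattice points -/

theorem sum_inj (ρ : ℝ) (h0 : 0 < ρ) (h1 : ρ < 1) {ι : Type} (I : Finset ι) (g : ι → ℕ)
    (hg : Set.InjOn g I) : ∑ n ∈ I, ρ ^ g n ≤ 1 / (1 - ρ) := by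
  classical
  rw [← Finset.sum_image (f := fun k => ρ ^ k) hg, one_div, ← tsum_geometric_of_lt_one h0.le h1]
  exact (summable_geometric_of_lt_one h0.le h1).sum_le_tsum _ (fun i _ => pow_nonneg h0.le i)

theorem sum_line (ρ : ℝ) (h0 : 0 < ρ) (h1 : ρ < 1) (I : Finset ℤ) (c : ℤ) :
    ∑ n ∈ I, ρ ^ (n - c).natAbs ≤ 2 / (1 - ρ) := by
  rw [← Finset.sum_filter_add_sum_filter_not I (fun n => c ≤ n)]
  have h2 := sum_inj ρ h0 h1 (I.filter fun n => c ≤ n) (fun n => (n - c).natAbs) (by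
    intro x hx y hy hxy
    simp only [coe_filter, Set.mem_ofPred_eq] at hx hy hxy
    omega)
  have h3 := sum_inj ρ h0 h1 (I.filter fun n => ¬ c ≤ n) (fun n => (n - c).natAbs) (by
    intro x hx y hy hxy
    simp only [coe_filter, Set.mem_ofPred_eq] at hx hy hxy
    omega)
  have h4 : (2 : ℝ) / (1 - ρ) = 1 / (1 - ρ) + 1 / (1 - ρ) := by ring
  rw [h4]
  exact add_le_add h2 h3

theorem toNat_sum {d : ℕ} (a b : Fin d → ℤ) :
    (∑ i, |a i - b i|).toNat = ∑ i, (a i - b i).natAbs := by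
  have h1 : ∑ i, |a i - b i| = ((∑ i, (a i - b i).natAbs : ℕ) : ℤ) := by
    push_cast
    exact Finset.sum_congr rfl fun i _ => rfl
  rw [h1, Int.toNat_natCast]

theorem sum_lattice (ρ : ℝ) (h0 : 0 < ρ) (h1 : ρ < 1) {d : ℕ} (S : Finset (Fin d → ℤ))
    (v : Fin d → ℤ) : ∑ y ∈ S, ρ ^ (∑ i, |y i - v i|).toNat ≤ (2 / (1 - ρ)) ^ d := by
  classical
  have h2 : S ⊆ Fintype.piFinset fun i => S.image fun y => y i := by
    intro y hy
    rw [Fintype.mem_piFinset]
    exact fun i => mem_image_of_mem _ hy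
  calc ∑ y ∈ S, ρ ^ (∑ i, |y i - v i|).toNat ≤
      ∑ y ∈ Fintype.piFinset (fun i => S.image fun y => y i), ρ ^ (∑ i, |y i - v i|).toNat :=
        sum_le_sum_of_subset_of_nonneg h2 fun _ _ _ => pow_nonneg h0.le _
    _ = ∑ y ∈ Fintype.piFinset (fun i => S.image fun y => y i), ∏ i, ρ ^ (y i - v i).natAbs := by
        refine sum_congr rfl fun y _ => ?_
        rw [toNat_sum, prod_pow_eq_pow_sum]
    _ = ∏ i, ∑ n ∈ S.image (fun y => y i), ρ ^ (n - v i).natAbs :=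
        (prod_univ_sum (fun i => S.image fun y => y i) fun i n => ρ ^ (n - v i).natAbs).symm
    _ ≤ ∏ _i : Fin d, 2 / (1 - ρ) :=
        prod_le_prod (fun i _ => sum_nonneg fun _ _ => pow_nonneg h0.le _)
          fun i _ => sum_line ρ h0 h1 _ _
    _ = (2 / (1 - ρ)) ^ d := by rw [prod_const, card_univ, Fintype.card_fin]

/-! ### the host -/

section

variable {d q : ℕ} (R : Finset (Fin d → ℤ))

/-- the lattice points of the region and its boundary -/
noncomputable def TT : Finset (Fin d → ℤ) := R.biUnion fun u => Finset.Icc (u - 1) (u + 1)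

theorem mem_TT_self {u : Fin d → ℤ} (hu : u ∈ R) : u ∈ TT R := by
  unfold TT
  rw [mem_biUnion]
  refine ⟨u, hu, ?_⟩
  rw [Finset.mem_Icc]
  constructor <;> intro i <;> simp

theorem mem_TT_nb {u y : Fin d → ℤ} (hu : u ∈ R) (h : ∑ i, |u i - y i| = 1) : y ∈ TT R := by
  unfold TT
  rw [mem_biUnion]
  refine ⟨u, hu, ?_⟩
  rw [Finset.mem_Icc]
  have h1 : ∀ i, |u i - y i| ≤ 1 := fun i => by
    rw [← h]
    exact single_le_sum (f := fun i => |u i - y i|) (fun _ _ => abs_nonneg _) (mem_univ i)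
  constructor <;> intro i <;> have h2 := abs_le.1 (h1 i) <;> simp <;> linarith

/-- the host type -/
abbrev VT : Type := ↥(TT R)

/-- the graph -/
def GG : SimpleGraph (VT R) := zgr (Subtype.val : VT R → Fin d → ℤ)

/-- the region -/
noncomputable def Rg : Finset (VT R) := univ.filter fun z => z.1 ∈ R

/-- the boundary -/
noncomputable def Bd : Finset (VT R) := univ.filter fun z => z.1 ∉ R

theorem mem_Rg (z : VT R) : z ∈ Rg R ↔ z.1 ∈ R := by
  unfold Rg
  simp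

theorem mem_Bd (z : VT R) : z ∈ Bd R ↔ z.1 ∉ R := by
  unfold Bd
  simp

open Classical in
/-- the lists for the boundary condition `κ` on the set `B` -/
noncomputable def LLs (κ : (Fin d → ℤ) → Fin q) (B : Finset (VT R)) : VT R → Finset (Fin q) :=
  fun z => univ.filter fun c => z.1 ∈ R → ∀ y ∈ B, (GG R).Adj z y → c ≠ κ y.1

theorem mem_LLs (κ : (Fin d → ℤ) → Fin q) (B : Finset (VT R)) (z : VT R) (c : Fin q) :
    c ∈ LLs R κ B z ↔ (z.1 ∈ R → ∀ y ∈ B, (GG R).Adj z y → c ≠ κ y.1) := by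
  unfold LLs
  simp

theorem LLs_congr (κ κ' : (Fin d → ℤ) → Fin q) (B : Finset (VT R))
    (h : ∀ y ∈ B, κ y.1 = κ' y.1) : LLs R κ B = LLs R κ' B := by
  funext z
  ext c
  rw [mem_LLs, mem_LLs]
  constructor
  · intro h1 hz y hy hzy
    rw [← h y hy]
    exact h1 hz y hy hzy
  · intro h1 hz y hy hzy
    rw [h y hy]
    exact h1 hz y hy hzy

theorem LLs_era (κ : (Fin d → ℤ) → Fin q) (B : Finset (VT R)) (y0 : VT R) (hy0 : y0 ∈ B) :
    LLs R κ B = era (LLs R κ (B.erase y0)) (nb (GG R) (Rg R) y0) (κ y0.1) := by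
  funext z
  ext c
  unfold era
  split_ifs with h
  · rw [mem_erase, mem_LLs, mem_LLs]
    rw [mem_nb, mem_Rg] at h
    constructor
    · intro h1
      exact ⟨h1 h.1 y0 hy0 h.2.symm, fun hz y hy => h1 hz y (mem_of_mem_erase hy)⟩
    · rintro ⟨h1, h2⟩ hz y hy hzy
      by_cases hyy : y = y0
      · rw [hyy]
        exact h1
      · exact h2 hz y (mem_erase.2 ⟨hyy, hy⟩) hzy
  · rw [mem_LLs, mem_LLs]
    rw [mem_nb, mem_Rg] at h
    constructor
    · intro h1 hz y hy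
      exact h1 hz y (mem_of_mem_erase hy)
    · intro h2 hz y hy hzy
      refine h2 hz y (mem_erase.2 ⟨?_, hy⟩) hzy
      rintro rfl
      exact h ⟨hz, hzy.symm⟩

theorem deg (z : VT R) : (nb (GG R) univ z).card ≤ 2 * d := by
  classical
  have h1 := Pool.Agent.Y514.HL.deg_Zd d (VT R) (GG R) Subtype.val Subtype.val_injective
    (fun u w h => h) z
  have h2 : ((GG R).neighborSet z) = ((nb (GG R) univ z : Finset (VT R)) : Set (VT R)) := by
    ext w
    rw [SimpleGraph.mem_neighborSet, mem_coe, mem_nb]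
    simp
  rwa [h2, Set.ncard_coe_finset] at h1

theorem card_LLs (κ : (Fin d → ℤ) → Fin q) (B : Finset (VT R)) (z : VT R) :
    q ≤ (LLs R κ B z).card + (nb (GG R) B z).card := by
  classical
  have h1 : (univ : Finset (Fin q)) ⊆
      LLs R κ B z ∪ (nb (GG R) B z).image fun y => κ y.1 := by
    intro c _
    rw [mem_union, mem_LLs, mem_image]
    by_contra hcon
    push Not at hcon
    obtain ⟨⟨_, y, hy, hzy, hc⟩, h2⟩ := hcon
    exact h2 y ((mem_nb _ _ _ _).2 ⟨hy, hzy⟩) hc.symm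
  have h2 := card_le_card h1
  rw [card_univ, Fintype.card_fin] at h2
  exact h2.trans ((card_union_le _ _).trans (Nat.add_le_add_left card_image_le _))

theorem card_two (z : VT R) (B : Finset (VT R)) (hB : B ⊆ Bd R) :
    (nb (GG R) (Rg R) z).card + (nb (GG R) B z).card ≤ 2 * d := by
  classical
  refine le_trans ?_ (deg R z)
  rw [← card_union_of_disjoint]
  · refine card_le_card fun w hw => ?_
    rw [mem_union, mem_nb, mem_nb] at hw
    rw [mem_nb]
    exact ⟨mem_univ _, hw.elim (fun h => h.2) fun h => h.2⟩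
  · rw [disjoint_left]
    intro w h1 h2
    rw [mem_nb, mem_Rg] at h1
    rw [mem_nb] at h2
    exact (mem_Bd R w).1 (hB h2.1) h1.1

theorem slack (hq : 2 * d ≤ q) (κ : (Fin d → ℤ) → Fin q) (B : Finset (VT R)) (hB : B ⊆ Bd R) :
    Sl (GG R) (q - 2 * d) (Rg R) (LLs R κ B) := by
  intro w _
  have h1 := card_LLs R κ B w
  have h2 := card_two R w B hB
  omega

theorem slackP (hq : 2 * d ≤ q) (κ : (Fin d → ℤ) → Fin q) (y0 : VT R) (hy0 : y0 ∈ Bd R) :
    SlP (GG R) (q - 2 * d) (Rg R) (nb (GG R) (Rg R) y0) (LLs R κ ((Bd R).erase y0)) := by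
  intro w hw
  have h1 := card_LLs R κ ((Bd R).erase y0) w
  have h2 := card_two R w (Bd R) (Finset.Subset.refl _)
  have h3 : (nb (GG R) ((Bd R).erase y0) w).card + 1 ≤ (nb (GG R) (Bd R) w).card := by
    rw [mem_nb] at hw
    have h4 : nb (GG R) ((Bd R).erase y0) w ⊆ (nb (GG R) (Bd R) w).erase y0 := by
      intro y hy
      rw [mem_nb, mem_erase] at hy
      rw [mem_erase, mem_nb]
      exact ⟨hy.1.1, hy.1.2, hy.2⟩
    have h5 : y0 ∈ nb (GG R) (Bd R) w := (mem_nb _ _ _ _).2 ⟨hy0, hw.2.symm⟩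
    have h6 := card_le_card h4
    rw [card_erase_of_mem h5] at h6
    have h7 := card_pos.2 ⟨y0, h5⟩
    omega
  omega

/-- extension of a colouring of the region -/
def ext (c0 : Fin q) (f : ↥R → Fin q) : VT R → Fin q :=
  fun z => if h : z.1 ∈ R then f ⟨z.1, h⟩ else c0

theorem ext_inj (c0 : Fin q) : Function.Injective (ext R c0 : (↥R → Fin q) → VT R → Fin q) := by
  intro f g h
  funext u
  have h1 := congrFun h ⟨u.1, mem_TT_self R u.2⟩
  unfold ext at h1
  simpa [u.2] using h1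

theorem ext_of {c0 : Fin q} {f : ↥R → Fin q} (u : ↥R) :
    ext R c0 f ⟨u.1, mem_TT_self R u.2⟩ = f u := by
  unfold ext
  simp [u.2]

theorem col_image (c0 : Fin q) (κ : (Fin d → ℤ) → Fin q) :
    ((Col (GG R) c0 (Rg R) (LLs R κ (Bd R)) : Finset (VT R → Fin q)) : Set (VT R → Fin q)) =
      ext R c0 '' bcCol d q R κ := by
  ext σ
  rw [mem_coe, Set.mem_image, mem_Col]
  constructor
  · rintro ⟨h1, h2, h3⟩
    refine ⟨fun u => σ ⟨u.1, mem_TT_self R u.2⟩, ⟨fun u w huw => ?_, fun u y hy huy => ?_⟩, ?_⟩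
    · exact h3 _ ((mem_Rg R _).2 u.2) _ ((mem_Rg R _).2 w.2) huw
    · have h4 := h1 ⟨u.1, mem_TT_self R u.2⟩ ((mem_Rg R _).2 u.2)
      rw [mem_LLs] at h4
      exact h4 u.2 ⟨y, mem_TT_nb R u.2 huy⟩ ((mem_Bd R _).2 hy) huy
    · funext z
      unfold ext
      split_ifs with h
      · rfl
      · exact (h2 z (fun h' => h ((mem_Rg R z).1 h'))).symm
  · rintro ⟨f, ⟨h1, h2⟩, rfl⟩
    refine ⟨fun z hz => ?_, fun z hz => ?_, fun u hu w hw huw => ?_⟩
    · rw [mem_Rg] at hz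
      rw [mem_LLs]
      intro _ y hy hzy
      unfold ext
      rw [dif_pos hz]
      exact h2 ⟨z.1, hz⟩ y.1 ((mem_Bd R y).1 hy) hzy
    · unfold ext
      rw [dif_neg fun h => hz ((mem_Rg R z).2 h)]
    · rw [mem_Rg] at hu hw
      unfold ext
      rw [dif_pos hu, dif_pos hw]
      exact h1 ⟨u.1, hu⟩ ⟨w.1, hw⟩ huw

theorem bcPr_eq (c0 : Fin q) (κ : (Fin d → ℤ) → Fin q) (v : ↥R) (a : Fin q) :
    bcPr d q R κ v a = EE (GG R) c0 (Rg R) (LLs R κ (Bd R))
      (fun σ => if σ ⟨v.1, mem_TT_self R v.2⟩ = a then 1 else 0) := by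
  classical
  unfold bcPr EE
  have h1 : (bcCol d q R κ).ncard = (Col (GG R) c0 (Rg R) (LLs R κ (Bd R))).card := by
    rw [← Set.ncard_coe_finset, col_image, Set.ncard_image_of_injective _ (ext_inj R c0)]
  have h2 : {f ∈ bcCol d q R κ | f v = a}.ncard =
      ((Col (GG R) c0 (Rg R) (LLs R κ (Bd R))).filter
        fun σ => σ ⟨v.1, mem_TT_self R v.2⟩ = a).card := by
    rw [← Set.ncard_coe_finset, ← Set.ncard_image_of_injective _ (ext_inj R c0)]
    congr 1
    ext σ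
    rw [mem_coe, mem_filter, ← mem_coe, col_image, Set.mem_image, Set.mem_image]
    constructor
    · rintro ⟨f, ⟨h3, h4⟩, rfl⟩
      exact ⟨⟨f, h3, rfl⟩, by rw [ext_of]; exact h4⟩
    · rintro ⟨⟨f, h3, rfl⟩, h4⟩
      rw [ext_of] at h4
      exact ⟨f, ⟨h3, h4⟩, rfl⟩
  rw [h1, h2, ← sum_filter, sum_const, nsmul_eq_mul, mul_one]

/-- one boundary point -/
theorem step {l : ℕ} {A : ℝ} (hq : 2 * d ≤ q) (hZ : ZB d q l A) (κ κ' : (Fin d → ℤ) → Fin q)
    (v : ↥R) (a : Fin q) (y0 : VT R) (hy0 : y0 ∈ Bd R) (h : ∀ y ∈ Bd R, y ≠ y0 → κ y.1 = κ' y.1) :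
    |bcPr d q R κ v a - bcPr d q R κ' v a| ≤ A / 2 ^ ((∑ i, |y0.1 i - v.1 i|).toNat / l) := by
  classical
  rw [bcPr_eq R a κ v a, bcPr_eq R a κ' v a, LLs_era R κ (Bd R) y0 hy0,
    LLs_era R κ' (Bd R) y0 hy0, LLs_congr R κ κ' ((Bd R).erase y0) (fun y hy =>
      h y (mem_of_mem_erase hy) (ne_of_mem_erase hy))]
  refine hZ (VT R) Subtype.val a Subtype.val_injective (Rg R).card
    (∑ i, |y0.1 i - v.1 i|).toNat (Rg R) _ y0 _ _ _ {⟨v.1, mem_TT_self R v.2⟩} le_rfl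
    (fun h => (mem_Bd R y0).1 hy0 ((mem_Rg R y0).1 h))
    (slack R hq κ' _ (erase_subset _ _)) (slackP R hq κ' y0 hy0) ?_ ?_ ?_
  · rw [singleton_subset_iff, mem_Rg]
    exact v.2
  · intro σ τ
    beta_reduce
    by_cases hst : σ ⟨v.1, mem_TT_self R v.2⟩ = τ ⟨v.1, mem_TT_self R v.2⟩
    · rw [hst, sub_self, abs_zero]
      exact Nat.cast_nonneg _
    · rw [filter_singleton, if_pos hst, card_singleton]
      split_ifs <;> norm_num
  · intro w hw
    rw [mem_singleton] at hw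
    rw [hw]

/-- telescoping -/
theorem tele {l : ℕ} {A : ℝ} (hq : 2 * d ≤ q) (hZ : ZB d q l A) (τ τ' : (Fin d → ℤ) → Fin q)
    (v : ↥R) (a : Fin q) (S : Finset (VT R)) (hS : S ⊆ Bd R) :
    |bcPr d q R (fun y => if y ∈ S.image Subtype.val then τ' y else τ y) v a -
      bcPr d q R τ v a| ≤ ∑ y ∈ S, A / 2 ^ ((∑ i, |y.1 i - v.1 i|).toNat / l) := by
  classical
  induction S using Finset.induction_on with
  | empty => simp
  | insert y0 S hy0 ih =>
    have h1 := ih ((subset_insert _ _).trans hS)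
    have h2 := step R hq hZ
      (fun y => if y ∈ (insert y0 S).image Subtype.val then τ' y else τ y)
      (fun y => if y ∈ S.image Subtype.val then τ' y else τ y) v a y0
      (hS (mem_insert_self _ _)) (by
        intro y _ hyy
        have h3 : y.1 ∈ (insert y0 S).image Subtype.val ↔ y.1 ∈ S.image Subtype.val := by
          rw [mem_image, mem_image]
          constructor
          · rintro ⟨z, hz, hzy⟩
            have hzy' : z = y := Subtype.ext hzy
            rw [hzy', mem_insert] at hz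
            exact ⟨y, hz.resolve_left hyy, rfl⟩
          · rintro ⟨z, hz, hzy⟩
            exact ⟨z, mem_insert_of_mem hz, hzy⟩
        simp only [h3])
    rw [sum_insert hy0]
    exact (abs_sub_le _ _ _).trans (add_le_add h2 h1)

end

/-! ### the decay rate -/

theorem rate (l : ℕ) (hl : 1 ≤ l) : ∃ ρ : ℝ, 0 < ρ ∧ ρ < 1 ∧ ∀ m : ℕ,
    (1 : ℝ) / 2 ^ (m / l) ≤ 2 * (ρ ^ m * ρ ^ m) := by
  have h2l : (0 : ℝ) < 2 * (l : ℝ) := by
    have : (0 : ℝ) < l := by exact_mod_cast hl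
    positivity
  refine ⟨(1 / 2 : ℝ) ^ (1 / (2 * (l : ℝ))), by positivity,
    Real.rpow_lt_one (by norm_num) (by norm_num) (by positivity), fun m => ?_⟩
  obtain ⟨ρ, hρ⟩ : ∃ ρ : ℝ, ρ = (1 / 2 : ℝ) ^ (1 / (2 * (l : ℝ))) := ⟨_, rfl⟩
  rw [← hρ]
  have h0 : 0 < ρ := by rw [hρ]; positivity
  have h1 : ρ ≤ 1 := by
    rw [hρ]
    exact (Real.rpow_lt_one (by norm_num) (by norm_num) (by positivity)).le
  have h3 : ρ ^ (2 * l) = 1 / 2 := by
    rw [hρ, ← Real.rpow_natCast, ← Real.rpow_mul (by norm_num)]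
    push_cast
    rw [one_div_mul_cancel h2l.ne', Real.rpow_one]
  have h4 : ρ ^ m * ρ ^ m = ρ ^ (2 * l * (m / l)) * ρ ^ (2 * (m % l)) := by
    rw [← pow_add, ← pow_add]
    congr 1
    have := Nat.div_add_mod m l
    nlinarith
  have h5 : ρ ^ (2 * l) ≤ ρ ^ (2 * (m % l)) :=
    pow_le_pow_of_le_one h0.le h1 (Nat.mul_le_mul_left 2 (Nat.mod_lt m hl).le)
  rw [h3] at h5
  rw [h4, pow_mul, h3, one_div_pow]
  have h6 : (0 : ℝ) < 1 / 2 ^ (m / l) := by positivity
  nlinarith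

theorem t_SSM : S_SSM := by
  intro d q l A hA hl hq hZ
  classical
  obtain ⟨ρ, h0, h1, hρ⟩ := rate l hl
  have hpos : 0 < (2 / (1 - ρ)) ^ d := by
    have : 0 < 1 - ρ := by linarith
    positivity
  refine ⟨2 * A * (2 / (1 - ρ)) ^ d + 1, ρ, by positivity, h0, h1,
    fun R τ τ' v a r hr => ?_⟩
  obtain ⟨S, hS⟩ : ∃ S : Finset (VT R), S = (Bd R).filter fun y => τ y.1 ≠ τ' y.1 := ⟨_, rfl⟩
  have hSB : S ⊆ Bd R := by rw [hS]; exact filter_subset _ _
  have h2 := tele R (by omega) hZ τ τ' v a S hSB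
  have h3 : bcPr d q R (fun y => if y ∈ S.image Subtype.val then τ' y else τ y) v a =
      bcPr d q R τ' v a := by
    rw [bcPr_eq R a _ v a, bcPr_eq R a τ' v a]
    congr 1
    refine LLs_congr R _ _ _ fun y hy => ?_
    split_ifs with h
    · rfl
    · by_contra hne
      apply h
      rw [mem_image]
      exact ⟨y, by rw [hS, mem_filter]; exact ⟨hy, hne⟩, rfl⟩
  rw [h3, abs_sub_comm] at h2
  refine h2.trans ?_
  have hrr : ∀ y ∈ S, r ≤ (∑ i, |y.1 i - v.1 i|).toNat := by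
    intro y hy
    rw [hS, mem_filter, mem_Bd] at hy
    by_contra hlt
    push Not at hlt
    apply hy.2
    refine hr y.1 hy.1 ?_
    have h4 : ∑ i, |v.1 i - y.1 i| = ∑ i, |y.1 i - v.1 i| :=
      sum_congr rfl fun i _ => abs_sub_comm _ _
    rw [h4]
    have h5 : 0 ≤ ∑ i, |y.1 i - v.1 i| := sum_nonneg fun _ _ => abs_nonneg _
    omega
  have h6 : ∀ y ∈ S, A / 2 ^ ((∑ i, |y.1 i - v.1 i|).toNat / l) ≤
      2 * A * ρ ^ r * ρ ^ (∑ i, |y.1 i - v.1 i|).toNat := by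
    intro y hy
    obtain ⟨m, hm⟩ : ∃ m, m = (∑ i, |y.1 i - v.1 i|).toNat := ⟨_, rfl⟩
    have h7 := hρ m
    have h8 := hrr y hy
    rw [← hm] at h8 ⊢
    have h9 : ρ ^ m ≤ ρ ^ r := pow_le_pow_of_le_one h0.le h1.le h8
    have h10 : 0 ≤ ρ ^ m := pow_nonneg h0.le _
    calc A / 2 ^ (m / l) = A * (1 / 2 ^ (m / l)) := by ring
      _ ≤ A * (2 * (ρ ^ m * ρ ^ m)) := mul_le_mul_of_nonneg_left h7 hA
      _ = (2 * A * ρ ^ m) * ρ ^ m := by ring
      _ ≤ (2 * A * ρ ^ r) * ρ ^ m := by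
          refine mul_le_mul_of_nonneg_right ?_ h10
          exact mul_le_mul_of_nonneg_left h9 (by positivity)
  refine (sum_le_sum h6).trans ?_
  rw [← mul_sum]
  have h11 : ∑ y ∈ S, ρ ^ (∑ i, |y.1 i - v.1 i|).toNat ≤ (2 / (1 - ρ)) ^ d := by
    have h12 := sum_lattice ρ h0 h1 (S.image Subtype.val) v.1
    rw [sum_image (fun x _ y _ h => Subtype.ext h)] at h12
    exact h12
  have h13 : 0 ≤ 2 * A * ρ ^ r := by positivity
  have h14 := mul_le_mul_of_nonneg_left h11 h13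
  have h15 : 0 < ρ ^ r := pow_pos h0 r
  nlinarith

end Pool.Agent.Y434.DZ
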